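import Pool.Agent.helper5.PR.SpecK

/-!
Project pr, module K-BC: base change of a representation along a ring homomorphism of the ring of its
entries.
-/

set_option autoImplicit false

namespace Pool.Agent.PR

open Matrix

theorem K_BC_closed (n : ℕ) (Λ : Type) [Group Λ] (E : Type) [Field E] (ρ : Λ →* GL (Fin n) E)
    (R : Subring E) (A : Set Λ) (hA : Subgroup.closure A = ⊤)
    (h : ∀ a ∈ A, ∀ i j, (ρ a : Matrix (Fin n) (Fin n) E) i j ∈ R ∧
      (ρ a⁻¹ : Matrix (Fin n) (Fin n) E) i j ∈ R) (l : Λ) :
    ∀ i j, (ρ l : Matrix (Fin n) (Fin n) E) i j ∈ R := by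
  have key : ∀ l : Λ, ∀ i j, (ρ l : Matrix (Fin n) (Fin n) E) i j ∈ R ∧
      (ρ l⁻¹ : Matrix (Fin n) (Fin n) E) i j ∈ R := by
    intro l
    have hl : l ∈ Subgroup.closure A := by rw [hA]; trivial
    have hmul : ∀ x y : Λ, (∀ i j, (ρ x : Matrix (Fin n) (Fin n) E) i j ∈ R) →
        (∀ i j, (ρ y : Matrix (Fin n) (Fin n) E) i j ∈ R) →
        ∀ i j, (ρ (x * y) : Matrix (Fin n) (Fin n) E) i j ∈ R := by
      intro x y hx hy i j
      rw [map_mul, Units.val_mul, Matrix.mul_apply]
      exact Subring.sum_mem _ fun k _ => R.mul_mem (hx i k) (hy k j)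
    induction hl using Subgroup.closure_induction with
    | mem x hx => exact h x hx
    | one =>
      have h1 : ∀ i j, (ρ (1 : Λ) : Matrix (Fin n) (Fin n) E) i j ∈ R := by
        intro i j
        rw [map_one, Units.val_one, Matrix.one_apply]
        split_ifs
        · exact R.one_mem
        · exact R.zero_mem
      intro i j
      refine ⟨h1 i j, ?_⟩
      rw [inv_one]
      exact h1 i j
    | mul x y _ _ hx hy =>
      intro i j
      refine ⟨hmul x y (fun i j => (hx i j).1) (fun i j => (hy i j).1) i j, ?_⟩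
      rw [_root_.mul_inv_rev]
      exact hmul y⁻¹ x⁻¹ (fun i j => (hy i j).2) (fun i j => (hx i j).2) i j
    | inv x _ hx =>
      intro i j
      refine ⟨(hx i j).2, ?_⟩
      rw [inv_inv]
      exact (hx i j).1
  exact fun i j => (key l i j).1

theorem K_BC : K_BC_stmt := by
  intro n Λ _ hFG E _ ρ
  classical
  obtain ⟨A, hA⟩ := hFG.out
  set S : Finset E := (A ×ˢ (Finset.univ : Finset (Fin n × Fin n))).image
      (fun p => (ρ p.1 : Matrix (Fin n) (Fin n) E) p.2.1 p.2.2) ∪
    (A ×ˢ (Finset.univ : Finset (Fin n × Fin n))).image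
      (fun p => (ρ p.1⁻¹ : Matrix (Fin n) (Fin n) E) p.2.1 p.2.2) with hS
  have hmem : ∀ l i j, (ρ l : Matrix (Fin n) (Fin n) E) i j ∈ Algebra.adjoin ℤ (S : Set E) := by
    intro l i j
    have h1 := K_BC_closed n Λ E ρ (Algebra.adjoin ℤ (S : Set E)).toSubring (A : Set Λ) hA
      (by
        intro a ha i j
        constructor
        · apply Algebra.subset_adjoin
          rw [hS, Finset.coe_union]
          left
          rw [Finset.mem_coe, Finset.mem_image]
          exact ⟨(a, (i, j)), by simpa using ha, rfl⟩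
        · apply Algebra.subset_adjoin
          rw [hS, Finset.coe_union]
          right
          rw [Finset.mem_coe, Finset.mem_image]
          exact ⟨(a, (i, j)), by simpa using ha, rfl⟩) l i j
    exact h1
  refine ⟨S, hmem, ?_⟩
  intro Ω _ σ hσ
  let φ : Λ →* Matrix (Fin n) (Fin n) (Algebra.adjoin ℤ (S : Set E)) :=
    { toFun := fun l => Matrix.of fun i j => ⟨(ρ l : Matrix (Fin n) (Fin n) E) i j, hmem l i j⟩
      map_one' := by
        ext i j
        simp only [Matrix.of_apply, map_one, Units.val_one, Matrix.one_apply]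
        split_ifs <;> simp
      map_mul' := by
        intro x y
        ext i j
        simp only [Matrix.of_apply, map_mul, Units.val_mul, Matrix.mul_apply]
        push_cast
        rfl }
  let r : Λ →* GL (Fin n) Ω := (((σ.mapMatrix (m := Fin n)).toMonoidHom).comp φ).toHomUnits
  have hr : ∀ l i j (h : (ρ l : Matrix (Fin n) (Fin n) E) i j ∈ Algebra.adjoin ℤ (S : Set E)),
      (r l : Matrix (Fin n) (Fin n) Ω) i j = σ ⟨_, h⟩ := by
    intro l i j h
    rfl
  refine ⟨r, hr, ?_⟩
  intro hinf hfin
  apply hinf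
  have hfac : Function.FactorsThrough (fun l => ρ l) (fun l => r l) := by
    intro a b hab
    ext i j
    have h1 := hr a i j (hmem a i j)
    have h2 := hr b i j (hmem b i j)
    have hab' : r a = r b := hab
    rw [hab'] at h1
    rw [h1] at h2
    have h3 := hσ h2
    exact congrArg Subtype.val h3
  obtain ⟨e, he⟩ := (Function.factorsThrough_iff _).1 hfac
  have h4 : Set.range ρ = e '' Set.range r := by
    rw [← Set.range_comp]
    exact congrArg Set.range he
  rw [h4]
  exact hfin.image e

end Pool.Agent.PR
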