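import Pool.Agent.helper5.PR.SpecK

/-!
Project pr, module K-CLO: linear conditions over `ℚ_ℓ` are closed.
-/

set_option autoImplicit false

namespace Pool.Agent.PR

open Matrix

theorem K_CLO_fiber {K : Type} [NontriviallyNormedField K] [CompleteSpace K] {M : Type}
    [AddCommGroup M] [Module K M] [TopologicalSpace M] [IsTopologicalAddGroup M]
    [ContinuousSMul K M] [T2Space M] [FiniteDimensional K M] {U : Type} [AddCommGroup U]
    [Module K U] (L : M →ₗ[K] U) (c : U) : IsClosed {q : M | L q = c} := by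
  by_cases h : ∃ q₀, L q₀ = c
  · obtain ⟨q₀, hq₀⟩ := h
    have h1 : IsClosed ((LinearMap.ker L : Submodule K M) : Set M) :=
      Submodule.closed_of_finiteDimensional _
    have h2 : {q : M | L q = c} = (fun q => q - q₀) ⁻¹' ((LinearMap.ker L : Submodule K M) : Set M) := by
      ext q
      simp only [Set.mem_preimage, SetLike.mem_coe, LinearMap.mem_ker, map_sub, hq₀, sub_eq_zero]
      rfl
    rw [h2]
    exact h1.preimage (continuous_id.sub continuous_const)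
  · have h2 : {q : M | L q = c} = ∅ := by
      ext q
      simp only [Set.mem_empty_iff_false, iff_false]
      intro hq
      exact h ⟨q, hq⟩
    rw [h2]
    exact isClosed_empty

/-- the extension to matrices over `ℚ_ℓ` -/
noncomputable def K_CLO_ext (ℓ : ℕ) [Fact ℓ.Prime] (ι : Type) [Fintype ι] [DecidableEq ι] (V : Type)
    [AddCommGroup V] [Module ℚ_[ℓ] V] (T : Matrix ι ι ℤ_[ℓ] →+ V) :
    Matrix ι ι ℚ_[ℓ] →ₗ[ℚ_[ℓ]] V where
  toFun Y := ∑ i, ∑ j, Y i j • T (Matrix.single i j 1)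
  map_add' Y Z := by
    simp only [Matrix.add_apply, add_smul, Finset.sum_add_distrib]
  map_smul' a Y := by
    simp only [Matrix.smul_apply, smul_eq_mul, RingHom.id_apply, Finset.smul_sum, mul_smul]

theorem K_CLO_ext_apply (ℓ : ℕ) [Fact ℓ.Prime] (ι : Type) [Fintype ι] [DecidableEq ι] (V : Type)
    [AddCommGroup V] [Module ℚ_[ℓ] V] (T : Matrix ι ι ℤ_[ℓ] →+ V)
    (hT : ∀ (a : ℤ_[ℓ]) X, T (a • X) = (a : ℚ_[ℓ]) • T X) (X : Matrix ι ι ℤ_[ℓ]) :
    K_CLO_ext ℓ ι V T (X.map (fun a => (a : ℚ_[ℓ]))) = T X := by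
  conv_rhs => rw [Matrix.matrix_eq_sum_single X]
  rw [map_sum]
  refine Finset.sum_congr rfl fun i _ => ?_
  rw [map_sum]
  refine Finset.sum_congr rfl fun j _ => ?_
  rw [Matrix.map_apply, ← hT, Matrix.smul_single, smul_eq_mul, mul_one]

theorem K_CLO : K_CLO_stmt := by
  intro ℓ _ ι κ _ _ V _ _ T T' hT hT' W w
  classical
  set L : (Matrix ι ι ℚ_[ℓ] × Matrix κ κ ℚ_[ℓ]) →ₗ[ℚ_[ℓ]] (V ⧸ W) :=
    W.mkQ ∘ₗ ((K_CLO_ext ℓ ι V T).coprod (K_CLO_ext ℓ κ V T')) with hL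
  have h1 := K_CLO_fiber L (W.mkQ w)
  have hc : Continuous (fun p : Matrix ι ι ℤ_[ℓ] × Matrix κ κ ℤ_[ℓ] =>
      ((p.1.map (fun a => (a : ℚ_[ℓ])), p.2.map (fun a => (a : ℚ_[ℓ]))) :
        Matrix ι ι ℚ_[ℓ] × Matrix κ κ ℚ_[ℓ])) := by
    have hcoe : Continuous (fun a : ℤ_[ℓ] => (a : ℚ_[ℓ])) := continuous_subtype_val
    exact (continuous_fst.matrix_map hcoe).prodMk (continuous_snd.matrix_map hcoe)
  have h2 := h1.preimage hc
  refine Eq.mp ?_ h2
  congr 1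
  ext p
  simp only [Set.mem_preimage]
  have e1 : L (p.1.map (fun a => (a : ℚ_[ℓ])), p.2.map (fun a => (a : ℚ_[ℓ]))) =
      W.mkQ (T p.1 + T' p.2) := by
    rw [hL]
    simp only [LinearMap.comp_apply, LinearMap.coprod_apply]
    rw [K_CLO_ext_apply ℓ ι V T hT, K_CLO_ext_apply ℓ κ V T' hT']
  show L (p.1.map (fun a => (a : ℚ_[ℓ])), p.2.map (fun a => (a : ℚ_[ℓ]))) = W.mkQ w ↔
    T p.1 + T' p.2 - w ∈ W
  rw [e1, ← Submodule.Quotient.mk_eq_zero, ← Submodule.mkQ_apply, map_sub, sub_eq_zero]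

end Pool.Agent.PR
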