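import Pool.Agent.helper5.PR.SpecK

/-!
Project pr, module K-REAL: transfer of pairs of representations over an algebraic closure of `ℚ_ℓ`.
-/

set_option autoImplicit false

namespace Pool.Agent.PR

open Matrix

/-- the additive map `X ↦ A X B` -/
noncomputable def K_REAL_T (ℓ : ℕ) [Fact ℓ.Prime] {ι : Type} [Fintype ι] {a b : Type}
    (A : Matrix a ι (Om ℓ)) (B : Matrix ι b (Om ℓ)) : Matrix ι ι ℤ_[ℓ] →+ Matrix a b (Om ℓ) where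
  toFun X := A * X.map (algebraMap ℤ_[ℓ] (Om ℓ)) * B
  map_zero' := by
    rw [Matrix.map_zero _ (map_zero _), Matrix.mul_zero, Matrix.zero_mul]
  map_add' X Y := by
    rw [Matrix.map_add _ (map_add _), Matrix.mul_add, Matrix.add_mul]

theorem K_REAL_T_apply (ℓ : ℕ) [Fact ℓ.Prime] {ι : Type} [Fintype ι] {a b : Type}
    (A : Matrix a ι (Om ℓ)) (B : Matrix ι b (Om ℓ)) (X : Matrix ι ι ℤ_[ℓ]) :
    K_REAL_T ℓ A B X = A * X.map (algebraMap ℤ_[ℓ] (Om ℓ)) * B := rfl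

theorem K_REAL_T_smul (ℓ : ℕ) [Fact ℓ.Prime] {ι : Type} [Fintype ι] {a b : Type}
    (A : Matrix a ι (Om ℓ)) (B : Matrix ι b (Om ℓ)) (c : ℤ_[ℓ]) (X : Matrix ι ι ℤ_[ℓ]) :
    K_REAL_T ℓ A B (c • X) = (c : ℚ_[ℓ]) • K_REAL_T ℓ A B X := by
  rw [K_REAL_T_apply, K_REAL_T_apply]
  have h1 : (c • X).map (algebraMap ℤ_[ℓ] (Om ℓ)) =
      (c : ℚ_[ℓ]) • X.map (algebraMap ℤ_[ℓ] (Om ℓ)) := by
    ext i j
    rw [Matrix.map_apply, Matrix.smul_apply, Matrix.smul_apply, Matrix.map_apply, smul_eq_mul,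
      map_mul, Algebra.smul_def]
    rfl
  rw [h1, Matrix.mul_smul, Matrix.smul_mul]

/-- the trace of `A X B` -/
noncomputable def K_REAL_t (ℓ : ℕ) [Fact ℓ.Prime] {ι : Type} [Fintype ι] {n : ℕ}
    (A : Matrix (Fin n) ι (Om ℓ)) (B : Matrix ι (Fin n) (Om ℓ)) : Matrix ι ι ℤ_[ℓ] →+ Om ℓ where
  toFun X := (K_REAL_T ℓ A B X).trace
  map_zero' := by rw [map_zero, Matrix.trace_zero]
  map_add' X Y := by rw [map_add, Matrix.trace_add]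

theorem K_REAL_t_apply (ℓ : ℕ) [Fact ℓ.Prime] {ι : Type} [Fintype ι] {n : ℕ}
    (A : Matrix (Fin n) ι (Om ℓ)) (B : Matrix ι (Fin n) (Om ℓ)) (X : Matrix ι ι ℤ_[ℓ]) :
    K_REAL_t ℓ A B X = (K_REAL_T ℓ A B X).trace := rfl

theorem K_REAL_t_smul (ℓ : ℕ) [Fact ℓ.Prime] {ι : Type} [Fintype ι] {n : ℕ}
    (A : Matrix (Fin n) ι (Om ℓ)) (B : Matrix ι (Fin n) (Om ℓ)) (c : ℤ_[ℓ]) (X : Matrix ι ι ℤ_[ℓ]) :
    K_REAL_t ℓ A B (c • X) = (c : ℚ_[ℓ]) • K_REAL_t ℓ A B X := by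
  rw [K_REAL_t_apply, K_REAL_t_apply, K_REAL_T_smul]
  simp only [Matrix.trace, Matrix.diag_apply, Matrix.smul_apply, Finset.smul_sum]

section closed

variable (hCLO : K_CLO_stmt) (ℓ : ℕ) [Fact ℓ.Prime] {ι κ : Type} [Fintype ι] [Fintype κ]
  {V : Type} [AddCommGroup V] [Module ℚ_[ℓ] V]

include hCLO in
theorem K_REAL_cl1 (T : Matrix ι ι ℤ_[ℓ] →+ V)
    (hT : ∀ (a : ℤ_[ℓ]) X, T (a • X) = (a : ℚ_[ℓ]) • T X) (W : Submodule ℚ_[ℓ] V) (w : V) :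
    IsClosed {X : Matrix ι ι ℤ_[ℓ] | T X - w ∈ W} := by
  have h1 := hCLO ℓ ι ι V T 0 hT (by intro a X; simp) W w
  have hc : Continuous (fun X : Matrix ι ι ℤ_[ℓ] => (X, X)) := continuous_id.prodMk continuous_id
  have h2 := h1.preimage hc
  refine Eq.mp ?_ h2
  congr 1
  ext X
  show T X + (0 : Matrix ι ι ℤ_[ℓ] →+ V) X - w ∈ W ↔ T X - w ∈ W
  rw [AddMonoidHom.zero_apply, add_zero]

include hCLO in
theorem K_REAL_cl2 (T : Matrix ι ι ℤ_[ℓ] →+ V) (T' : Matrix κ κ ℤ_[ℓ] →+ V)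
    (hT : ∀ (a : ℤ_[ℓ]) X, T (a • X) = (a : ℚ_[ℓ]) • T X)
    (hT' : ∀ (a : ℤ_[ℓ]) X, T' (a • X) = (a : ℚ_[ℓ]) • T' X) :
    IsClosed {p : Matrix ι ι ℤ_[ℓ] × Matrix κ κ ℤ_[ℓ] | T p.1 = T' p.2} := by
  have h1 := hCLO ℓ ι κ V T (-T') hT (by
    intro a X
    rw [AddMonoidHom.neg_apply, AddMonoidHom.neg_apply, hT', smul_neg]) ⊥ 0
  refine Eq.mp ?_ h1
  congr 1
  ext p
  show T p.1 + (-T') p.2 - 0 ∈ (⊥ : Submodule ℚ_[ℓ] V) ↔ T p.1 = T' p.2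
  rw [Submodule.mem_bot, AddMonoidHom.neg_apply, sub_zero, ← sub_eq_add_neg, sub_eq_zero]

include hCLO in
theorem K_REAL_clpt (T : Matrix ι ι ℤ_[ℓ] →+ V)
    (hT : ∀ (a : ℤ_[ℓ]) X, T (a • X) = (a : ℚ_[ℓ]) • T X) (c : V) :
    IsClosed {X : Matrix ι ι ℤ_[ℓ] | T X = c} := by
  have h1 := K_REAL_cl1 hCLO ℓ T hT ⊥ c
  refine Eq.mp ?_ h1
  congr 1
  ext X
  show T X - c ∈ (⊥ : Submodule ℚ_[ℓ] V) ↔ T X = c
  rw [Submodule.mem_bot, sub_eq_zero]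

include hCLO in
theorem K_REAL_clfin (T : Matrix ι ι ℤ_[ℓ] →+ V)
    (hT : ∀ (a : ℤ_[ℓ]) X, T (a • X) = (a : ℚ_[ℓ]) • T X) (F : Set V) (hF : F.Finite) :
    IsClosed {X : Matrix ι ι ℤ_[ℓ] | T X ∈ F} := by
  have h1 : {X : Matrix ι ι ℤ_[ℓ] | T X ∈ F} = ⋃ c ∈ F, {X : Matrix ι ι ℤ_[ℓ] | T X = c} := by
    ext X
    simp only [Set.mem_iUnion, exists_prop]
    constructor
    · intro h
      exact ⟨_, h, rfl⟩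
    · rintro ⟨c, hc, h⟩
      show T X ∈ F
      have h' : T X = c := h
      rw [h']
      exact hc
  rw [h1]
  exact hF.isClosed_biUnion fun c _ => K_REAL_clpt hCLO ℓ T hT c

include hCLO in
theorem K_REAL_clW (T : Matrix ι ι ℤ_[ℓ] →+ V)
    (hT : ∀ (a : ℤ_[ℓ]) X, T (a • X) = (a : ℚ_[ℓ]) • T X) (W : Submodule ℚ_[ℓ] V) :
    IsClosed {X : Matrix ι ι ℤ_[ℓ] | T X ∈ W} := by
  have h1 := K_REAL_cl1 hCLO ℓ T hT W 0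
  refine Eq.mp ?_ h1
  congr 1
  ext X
  show T X - 0 ∈ W ↔ T X ∈ W
  rw [sub_zero]

end closed

/-- the representation on the side of `Γ` -/
theorem K_REAL_hom (hCLO : K_CLO_stmt) (ℓ : ℕ) [Fact ℓ.Prime] (n : ℕ) (Γ Λ : Type) [Group Γ]
    [Group Λ] (r : Λ →* GL (Fin n) (Om ℓ)) {ι : Type} [Fintype ι] [DecidableEq ι]
    (R : Matrix (Fin n) ι (Om ℓ)) (R' : Matrix ι (Fin n) (Om ℓ)) (f : Λ →* GL ι ℤ_[ℓ])
    (hR : R * R' = 1)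
    (hf : ∀ l, R * (f l : Matrix ι ι ℤ_[ℓ]).map (algebraMap ℤ_[ℓ] (Om ℓ)) =
      (r l : Matrix (Fin n) (Fin n) (Om ℓ)) * R)
    (g : Γ →* GL ι ℤ_[ℓ])
    (hcl : ∀ p : Matrix ι ι ℤ_[ℓ] → Prop, IsClosed {X | p X} →
      ((∀ γ, p (g γ : Matrix ι ι ℤ_[ℓ])) ↔ (∀ l, p (f l : Matrix ι ι ℤ_[ℓ])))) :
    ∃ s : Γ →* Matrix (Fin n) (Fin n) (Om ℓ), ∀ γ, s γ = K_REAL_T ℓ R R' (g γ : Matrix ι ι ℤ_[ℓ]) := by
  have hsmul : ∀ (a : ℤ_[ℓ]) (X : Matrix ι ι ℤ_[ℓ]),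
      (K_REAL_T ℓ R (1 : Matrix ι ι (Om ℓ)) - K_REAL_T ℓ R (R' * R)) (a • X) =
      (a : ℚ_[ℓ]) • (K_REAL_T ℓ R (1 : Matrix ι ι (Om ℓ)) - K_REAL_T ℓ R (R' * R)) X := by
    intro a X
    rw [AddMonoidHom.sub_apply, AddMonoidHom.sub_apply, K_REAL_T_smul, K_REAL_T_smul, smul_sub]
  have hC3 := (hcl _ (K_REAL_clpt hCLO ℓ
    (K_REAL_T ℓ R (1 : Matrix ι ι (Om ℓ)) - K_REAL_T ℓ R (R' * R)) hsmul 0)).2 (by
      intro l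
      rw [AddMonoidHom.sub_apply,
        sub_eq_zero, K_REAL_T_apply, K_REAL_T_apply, Matrix.mul_one, hf, Matrix.mul_assoc,
        ← Matrix.mul_assoc R R' R, hR, Matrix.one_mul])
  have hC4 : ∀ γ, R * (g γ : Matrix ι ι ℤ_[ℓ]).map (algebraMap ℤ_[ℓ] (Om ℓ)) =
      R * (g γ : Matrix ι ι ℤ_[ℓ]).map (algebraMap ℤ_[ℓ] (Om ℓ)) * (R' * R) := by
    intro γ
    have h2 := hC3 γ
    rw [AddMonoidHom.sub_apply, sub_eq_zero, K_REAL_T_apply, K_REAL_T_apply, Matrix.mul_one] at h2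
    exact h2
  refine ⟨{ toFun := fun γ => K_REAL_T ℓ R R' (g γ : Matrix ι ι ℤ_[ℓ]), map_one' := ?_,
            map_mul' := ?_ }, fun γ => rfl⟩
  · rw [map_one, Units.val_one, K_REAL_T_apply, Matrix.map_one _ (map_zero _) (map_one _),
      Matrix.mul_one, hR]
  · intro x y
    rw [map_mul, Units.val_mul, K_REAL_T_apply, K_REAL_T_apply, K_REAL_T_apply, Matrix.map_mul,
      ← Matrix.mul_assoc]
    conv_lhs => rw [hC4 x]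
    simp only [Matrix.mul_assoc]

theorem K_REAL_range (n : ℕ) (Λ : Type) [Group Λ] (Ω : Type) [Field Ω] (r : Λ →* GL (Fin n) Ω)
    (F : Set (Matrix (Fin n) (Fin n) Ω)) (hF : F.Finite)
    (h : ∀ l, (r l : Matrix (Fin n) (Fin n) Ω) ∈ F) : (Set.range r).Finite := by
  apply Set.Finite.of_finite_image (f := fun x : GL (Fin n) Ω => (x : Matrix (Fin n) (Fin n) Ω))
  · apply hF.subset
    rintro _ ⟨_, ⟨l, rfl⟩, rfl⟩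
    exact h l
  · intro x _ y _ hxy
    exact Units.ext hxy

/-- the closed conditions on `f = (f₁, f₂)` and `g = (g₁, g₂)` -/
theorem K_REAL_pair (hTR : TR_stmt) (hTOP : K_TOP_stmt) (ℓ : ℕ) [Fact ℓ.Prime]
    (Γ Λ : Type) [Group Γ] [Group Λ] (hΓ : Group.FG Γ) (hQ : QuotLe Λ Γ) (ι κ : Type) [Fintype ι]
    [DecidableEq ι] [Fintype κ] [DecidableEq κ] (f₁ : Λ →* GL ι ℤ_[ℓ]) (f₂ : Λ →* GL κ ℤ_[ℓ]) :
    ∃ (g₁ : Γ →* GL ι ℤ_[ℓ]) (g₂ : Γ →* GL κ ℤ_[ℓ]),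
      (∀ p : Matrix ι ι ℤ_[ℓ] × Matrix κ κ ℤ_[ℓ] → Prop, IsClosed {q | p q} →
        ((∀ γ, p ((g₁ γ : Matrix ι ι ℤ_[ℓ]), (g₂ γ : Matrix κ κ ℤ_[ℓ]))) ↔
          (∀ l, p ((f₁ l : Matrix ι ι ℤ_[ℓ]), (f₂ l : Matrix κ κ ℤ_[ℓ]))))) ∧
      (∀ p : Matrix ι ι ℤ_[ℓ] × Matrix κ κ ℤ_[ℓ] → Prop, IsClosed {q | p q} →
        ((∀ γ, p ((g₁ γ : Matrix ι ι ℤ_[ℓ]), (g₂ γ⁻¹ : Matrix κ κ ℤ_[ℓ]))) ↔
          (∀ l, p ((f₁ l : Matrix ι ι ℤ_[ℓ]), (f₂ l⁻¹ : Matrix κ κ ℤ_[ℓ]))))) := by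
  obtain ⟨_, _, _, _⟩ := hTOP ℓ ι
  obtain ⟨_, _, _, _⟩ := hTOP ℓ κ
  obtain ⟨g, hg⟩ := hTR Γ Λ hΓ hQ (GL ι ℤ_[ℓ] × GL κ ℤ_[ℓ]) (f₁.prod f₂)
  refine ⟨(MonoidHom.fst _ _).comp g, (MonoidHom.snd _ _).comp g, ?_⟩
  have hP : ∀ C : Set (GL ι ℤ_[ℓ] × GL κ ℤ_[ℓ]), IsClosed C →
      ((∀ γ, g γ ∈ C) ↔ (∀ l, (f₁ l, f₂ l) ∈ C)) := by
    intro C hC
    constructor
    · intro h l
      have h1 : closure (Set.range g) ⊆ C := by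
        apply closure_minimal _ hC
        rintro _ ⟨γ, rfl⟩
        exact h γ
      rw [hg] at h1
      exact h1 (subset_closure ⟨l, rfl⟩)
    · intro h γ
      have h1 : closure (Set.range (f₁.prod f₂)) ⊆ C := by
        apply closure_minimal _ hC
        rintro _ ⟨l, rfl⟩
        exact h l
      rw [← hg] at h1
      exact h1 (subset_closure ⟨γ, rfl⟩)
  constructor
  · intro p hp
    have hc1 : Continuous (fun p : GL ι ℤ_[ℓ] × GL κ ℤ_[ℓ] => (p.1 : Matrix ι ι ℤ_[ℓ])) :=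
      Units.continuous_val.comp continuous_fst
    have hc2 : Continuous (fun p : GL ι ℤ_[ℓ] × GL κ ℤ_[ℓ] => (p.2 : Matrix κ κ ℤ_[ℓ])) :=
      Units.continuous_val.comp continuous_snd
    exact hP _ (hp.preimage (hc1.prodMk hc2))
  · intro p hp
    have hc1 : Continuous (fun p : GL ι ℤ_[ℓ] × GL κ ℤ_[ℓ] => (p.1 : Matrix ι ι ℤ_[ℓ])) :=
      Units.continuous_val.comp continuous_fst
    have hc2 : Continuous (fun p : GL ι ℤ_[ℓ] × GL κ ℤ_[ℓ] =>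
        ((p.2⁻¹ : GL κ ℤ_[ℓ]) : Matrix κ κ ℤ_[ℓ])) :=
      Units.continuous_val.comp (continuous_inv.comp continuous_snd)
    have h := hP _ (hp.preimage (hc1.prodMk hc2))
    simp only [map_inv]
    exact h

theorem K_REAL (hTR : TR_stmt) (hTOP : K_TOP_stmt) (hCLO : K_CLO_stmt) (hBLK : K_BLK_stmt) :
    K_REAL_stmt := by
  intro ℓ _ n Γ Λ _ _ hΓ hΛ hQ r₁ r₂ hi₁ hi₂
  obtain ⟨m₁, R₁, R₁', f₁, hR₁, hf₁⟩ := hBLK ℓ n Λ hΛ r₁ hi₁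
  obtain ⟨m₂, R₂, R₂', f₂, hR₂, hf₂⟩ := hBLK ℓ n Λ hΛ r₂ hi₂
  obtain ⟨g₁, g₂, hcl, hcl'⟩ := K_REAL_pair hTR hTOP ℓ Γ Λ hΓ hQ (Fin n × Fin m₁) (Fin n × Fin m₂)
    f₁ f₂
  have hcl₁ : ∀ p : Matrix (Fin n × Fin m₁) (Fin n × Fin m₁) ℤ_[ℓ] → Prop, IsClosed {X | p X} →
      ((∀ γ, p (g₁ γ : Matrix (Fin n × Fin m₁) (Fin n × Fin m₁) ℤ_[ℓ])) ↔
        (∀ l, p (f₁ l : Matrix (Fin n × Fin m₁) (Fin n × Fin m₁) ℤ_[ℓ]))) :=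
    fun p hp => hcl (fun q => p q.1) (hp.preimage continuous_fst)
  have hcl₂ : ∀ p : Matrix (Fin n × Fin m₂) (Fin n × Fin m₂) ℤ_[ℓ] → Prop, IsClosed {X | p X} →
      ((∀ γ, p (g₂ γ : Matrix (Fin n × Fin m₂) (Fin n × Fin m₂) ℤ_[ℓ])) ↔
        (∀ l, p (f₂ l : Matrix (Fin n × Fin m₂) (Fin n × Fin m₂) ℤ_[ℓ]))) :=
    fun p hp => hcl (fun q => p q.2) (hp.preimage continuous_snd)
  obtain ⟨s₁, hs₁⟩ := K_REAL_hom hCLO ℓ n Γ Λ r₁ R₁ R₁' f₁ hR₁ hf₁ g₁ hcl₁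
  obtain ⟨s₂, hs₂⟩ := K_REAL_hom hCLO ℓ n Γ Λ r₂ R₂ R₂' f₂ hR₂ hf₂ g₂ hcl₂
  have hT₁ : ∀ l, K_REAL_T ℓ R₁ R₁' (f₁ l : Matrix (Fin n × Fin m₁) (Fin n × Fin m₁) ℤ_[ℓ]) =
      (r₁ l : Matrix (Fin n) (Fin n) (Om ℓ)) := by
    intro l
    rw [K_REAL_T_apply, hf₁, Matrix.mul_assoc, hR₁, Matrix.mul_one]
  have hT₂ : ∀ l, K_REAL_T ℓ R₂ R₂' (f₂ l : Matrix (Fin n × Fin m₂) (Fin n × Fin m₂) ℤ_[ℓ]) =
      (r₂ l : Matrix (Fin n) (Fin n) (Om ℓ)) := by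
    intro l
    rw [K_REAL_T_apply, hf₂, Matrix.mul_assoc, hR₂, Matrix.mul_one]
  refine ⟨s₁, s₂, ?_, ?_, ?_, ?_, ?_⟩
  · intro hinf hfin'
    apply hinf
    apply K_REAL_range n Λ (Om ℓ) r₁ (Set.range s₁) hfin'
    have h1 := (hcl₁ _ (K_REAL_clfin hCLO ℓ (K_REAL_T ℓ R₁ R₁') (K_REAL_T_smul ℓ R₁ R₁')
      (Set.range s₁) hfin')).1 (by
      intro γ
      rw [← hs₁]
      exact ⟨γ, rfl⟩)
    intro l
    rw [← hT₁]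
    exact h1 l
  · intro hinf hfin'
    apply hinf
    apply K_REAL_range n Λ (Om ℓ) r₂ (Set.range s₂) hfin'
    have h1 := (hcl₂ _ (K_REAL_clfin hCLO ℓ (K_REAL_T ℓ R₂ R₂') (K_REAL_T_smul ℓ R₂ R₂')
      (Set.range s₂) hfin')).1 (by
      intro γ
      rw [← hs₂]
      exact ⟨γ, rfl⟩)
    intro l
    rw [← hT₂]
    exact h1 l
  · intro h
    have h2 := (hcl₁ _ (K_REAL_clW hCLO ℓ (K_REAL_t ℓ R₁ R₁') (K_REAL_t_smul ℓ R₁ R₁')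
      (LinearMap.range (Algebra.linearMap ℚ_[ℓ] (Om ℓ))))).1 (by
      intro γ
      rw [K_REAL_t_apply, ← hs₁]
      obtain ⟨x, hx⟩ := h γ
      exact LinearMap.mem_range.2 ⟨x, hx⟩)
    intro l
    have h3 := h2 l
    rw [K_REAL_t_apply, hT₁] at h3
    obtain ⟨x, hx⟩ := LinearMap.mem_range.1 h3
    exact ⟨x, hx⟩
  · intro h
    have h2 := (hcl _ (K_REAL_cl2 hCLO ℓ (K_REAL_t ℓ R₁ R₁') (K_REAL_t ℓ R₂ R₂')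
      (K_REAL_t_smul ℓ R₁ R₁') (K_REAL_t_smul ℓ R₂ R₂'))).1 (by
      intro γ
      rw [K_REAL_t_apply, K_REAL_t_apply, ← hs₁, ← hs₂, h γ])
    intro l
    have h3 := h2 l
    rw [K_REAL_t_apply, K_REAL_t_apply, hT₁, hT₂] at h3
    exact h3
  · intro h
    have h2 := (hcl' _ (K_REAL_cl2 hCLO ℓ (K_REAL_t ℓ R₁ R₁') (K_REAL_t ℓ R₂ R₂')
      (K_REAL_t_smul ℓ R₁ R₁') (K_REAL_t_smul ℓ R₂ R₂'))).1 (by
      intro γ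
      rw [K_REAL_t_apply, K_REAL_t_apply, ← hs₁, ← hs₂, h γ])
    intro l
    have h3 := h2 l
    rw [K_REAL_t_apply, K_REAL_t_apply, hT₁, hT₂] at h3
    exact h3

end Pool.Agent.PR
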