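import Pool.Agent.helper5.PR.SpecK

/-!
Project pr, module K-TOP: `GL(ι, ℤ_ℓ)` is a profinite group.
-/

set_option autoImplicit false

namespace Pool.Agent.PR

open Matrix

theorem K_TOP_aux (M : Type) [Monoid M] [TopologicalSpace M] [ContinuousMul M] [CompactSpace M]
    [T2Space M] [TotallyDisconnectedSpace M] :
    IsTopologicalGroup Mˣ ∧ CompactSpace Mˣ ∧ T2Space Mˣ ∧ TotallyDisconnectedSpace Mˣ := by
  refine ⟨inferInstance, ?_, inferInstance, ?_⟩
  · exact (Units.isClosedEmbedding_embedProduct (α := M)).compactSpace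
  · have : TotallyDisconnectedSpace Mᵐᵒᵖ := by
      constructor
      have h := (MulOpposite.opHomeomorph (M := M)).symm.isEmbedding.isTotallyDisconnected
        (s := Set.univ) (isTotallyDisconnected_of_totallyDisconnectedSpace _)
      exact h
    constructor
    exact (Units.isEmbedding_embedProduct (M := M)).isTotallyDisconnected
      (isTotallyDisconnected_of_totallyDisconnectedSpace _)

theorem K_TOP : K_TOP_stmt := by
  intro ℓ _ ι _ _
  have : CompactSpace (Matrix ι ι ℤ_[ℓ]) := inferInstanceAs (CompactSpace (ι → ι → ℤ_[ℓ]))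
  have : TotallyDisconnectedSpace ℤ_[ℓ] := inferInstance
  have : TotallyDisconnectedSpace (Matrix ι ι ℤ_[ℓ]) :=
    inferInstanceAs (TotallyDisconnectedSpace (ι → ι → ℤ_[ℓ]))
  exact K_TOP_aux (Matrix ι ι ℤ_[ℓ])

end Pool.Agent.PR
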