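import Pool.Agent.helper5.PR.SpecS

/-!
Project pr, module S-BND: if a trace is not `q`-integral then the levels of every system are bounded at `q`.
-/

set_option autoImplicit false

namespace Pool.Agent.PR

open Matrix

theorem S_BND_norm (q : ℕ) [Fact q.Prime] (t : ℚ) (h : q ∣ t.den) : ¬ ‖(t : ℚ_[q])‖ ≤ 1 := by
  intro h1
  have hden : ‖((t.den : ℤ) : ℚ_[q])‖ < 1 := by
    rw [Padic.norm_intCast_lt_one_iff]
    exact_mod_cast h
  have hmul : (t : ℚ_[q]) * ((t.den : ℤ) : ℚ_[q]) = ((t.num : ℤ) : ℚ_[q]) := by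
    have h2 := Rat.mul_den_eq_num t
    exact_mod_cast h2
  have hnum : ‖((t.num : ℤ) : ℚ_[q])‖ < 1 := by
    rw [← hmul, norm_mul]
    calc ‖(t : ℚ_[q])‖ * ‖((t.den : ℤ) : ℚ_[q])‖ ≤ 1 * ‖((t.den : ℤ) : ℚ_[q])‖ :=
          mul_le_mul_of_nonneg_right h1 (norm_nonneg _)
      _ < 1 := by rw [one_mul]; exact hden
  rw [Padic.norm_intCast_lt_one_iff] at hnum
  have h3 : q ∣ t.num.natAbs := Int.natCast_dvd.1 hnum
  have h4 := Nat.dvd_gcd h3 h
  rw [t.reduced.gcd_eq_one] at h4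
  exact (Fact.out : q.Prime).one_lt.ne' (Nat.dvd_one.1 h4)

theorem S_BND (hEXT : S_EXT_stmt) (hCMP : K_CMP_stmt) : S_BND_stmt := by
  intro n hn Λ _ hFG hQ hRF m hm R hR q hq hden S hU
  have : Fact q.Prime := ⟨hq⟩
  obtain ⟨l, hl⟩ := hden
  obtain ⟨Λ', _, π, ρ, hFG', hQ', _, hπ, _, _, hρ, _⟩ := hEXT n hn Λ hFG hRF S q hU
  let ι : SLI n m →* GL (Fin n) ℚ :=
    (Matrix.SpecialLinearGroup.toGL).comp (Matrix.SpecialLinearGroup.map (algebraMap (ZI m) ℚ))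
  have hι : ∀ x, (ι x : Matrix (Fin n) (Fin n) ℚ) = ratM x := fun x => rfl
  have hιinj : Function.Injective ι := by
    intro x y hxy
    have h1 : ratM x = ratM y := by rw [← hι, ← hι, hxy]
    apply Subtype.ext
    ext i j
    exact congrFun (congrFun h1 i) j
  let ρ₁ : Λ' →* GL (Fin n) ℚ := ι.comp (R.comp π)
  have h1 : (Set.range ρ₁).Infinite := by
    have h2 : Set.range ρ₁ = ι '' Set.range R := by
      ext y
      constructor
      · rintro ⟨x, rfl⟩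
        exact ⟨R (π x), ⟨π x, rfl⟩, rfl⟩
      · rintro ⟨_, ⟨l, rfl⟩, rfl⟩
        obtain ⟨x, rfl⟩ := hπ l
        exact ⟨x, rfl⟩
    rw [h2]
    exact hR.image hιinj.injOn
  let κ : GL (Fin n) ℤ_[q] →* GL (Fin n) ℚ_[q] :=
    Matrix.GeneralLinearGroup.map (algebraMap ℤ_[q] ℚ_[q])
  have hκ : ∀ x i j, (κ x : Matrix (Fin n) (Fin n) ℚ_[q]) i j =
      ((x : Matrix (Fin n) (Fin n) ℤ_[q]) i j : ℚ_[q]) := fun x i j => rfl
  have hκinj : Function.Injective κ := by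
    intro x y hxy
    apply Units.ext
    ext i j
    have h2 : (κ x : Matrix (Fin n) (Fin n) ℚ_[q]) i j = (κ y : Matrix (Fin n) (Fin n) ℚ_[q]) i j := by
      rw [hxy]
    rw [hκ, hκ] at h2
    exact Subtype.ext h2
  let ρ₂ : Λ' →* GL (Fin n) ℚ_[q] := κ.comp ρ
  have h2 : (Set.range ρ₂).Infinite := by
    have h3 : Set.range ρ₂ = κ '' Set.range ρ := by
      rw [← Set.range_comp]
      rfl
    rw [h3]
    exact hρ.image hκinj.injOn
  obtain ⟨t, ht, hor⟩ := hCMP n hn Λ' hFG' hQ' ℚ ℚ_[q] ρ₁ ρ₂ h1 h2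
  obtain ⟨x, rfl⟩ := hπ l
  have h3 : (ratM (R (π x))).trace = t x := by
    have h4 := ht x
    rw [Rat.cast_id] at h4
    exact h4
  have hint : ∀ y, ‖(ρ₂ y : Matrix (Fin n) (Fin n) ℚ_[q]).trace‖ ≤ 1 := by
    intro y
    have h4 : (ρ₂ y : Matrix (Fin n) (Fin n) ℚ_[q]).trace =
        (((ρ y : Matrix (Fin n) (Fin n) ℤ_[q]).trace : ℤ_[q]) : ℚ_[q]) := by
      simp only [Matrix.trace, Matrix.diag_apply, PadicInt.coe_sum]
      rfl
    rw [h4]
    exact PadicInt.norm_le_one _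
  rw [h3] at hl
  rcases hor with h5 | h5
  · have h6 := hint x
    rw [h5 x] at h6
    exact S_BND_norm q (t x) hl h6
  · have h6 := hint x⁻¹
    rw [h5 x⁻¹, inv_inv] at h6
    exact S_BND_norm q (t x) hl h6

end Pool.Agent.PR
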