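import Pool.Agent.helper5.PR.SpecS

/-!
Project pr, module S-DICH: either one prime has unbounded levels or infinitely many primes divide a level.
-/

set_option autoImplicit false

namespace Pool.Agent.PR

open Matrix

theorem S_DICH (hIDX : S_IDX_stmt) (hRFI : S_RFI_stmt) : S_DICH_stmt := by
  intro n hn Λ _ hRF hinf S
  by_contra hcon
  push Not at hcon
  obtain ⟨h1, B, h2⟩ := hcon
  have h3 : ∀ p : ℕ, ∃ i : ℕ, p.Prime → ∀ M, ¬ p ^ i ∣ lev hn S M := by
    intro p
    by_cases hp : p.Prime
    · have h4 := h1 p hp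
      unfold Unb at h4
      push Not at h4
      obtain ⟨i, hi⟩ := h4
      exact ⟨i, fun _ => hi⟩
    · exact ⟨0, fun h => absurd h hp⟩
  choose i hi using h3
  set D : ℕ := ∏ p ∈ (Finset.range (B + 1)).filter Nat.Prime, p ^ (i p) with hD
  have hD1 : 1 ≤ D := by
    rw [hD]
    apply Nat.succ_le_of_lt
    apply Finset.prod_pos
    intro p hp
    exact pow_pos (Finset.mem_filter.1 hp).2.pos _
  obtain ⟨C, hC⟩ := hIDX n hn Λ S D hD1
  obtain ⟨M, hM⟩ := hRFI Λ hRF hinf C
  have h5 : lev hn S M ∣ D := by
    rw [Nat.dvd_iff_prime_pow_dvd_dvd]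
    intro p k hp hk
    rcases Nat.eq_zero_or_pos k with rfl | hk0
    · simp
    · have h6 : p ∣ lev hn S M := (dvd_pow_self p hk0.ne').trans hk
      have h7 : p ≤ B := by
        by_contra h8
        push Not at h8
        exact h2 p hp h8 M h6
      have h8 : k ≤ i p := by
        by_contra h9
        push Not at h9
        exact hi p hp M ((pow_dvd_pow p h9.le).trans hk)
      refine (pow_dvd_pow p h8).trans ?_
      rw [hD]
      exact Finset.dvd_prod_of_mem (fun p => p ^ (i p))
        (Finset.mem_filter.2 ⟨Finset.mem_range.2 (by omega), hp⟩)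
  have h6 := hC M h5
  omega

end Pool.Agent.PR
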