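import Pool.Agent.helper5.PR.SpecS

/-!
Project pr, module S-EXP: some prime has unbounded levels.
-/

set_option autoImplicit false

namespace Pool.Agent.PR

open Matrix

theorem S_EXP (hDICH : S_DICH_stmt) (hADJ : S_ADJ_stmt) (hULT : S_ULT_stmt) (hALM : S_ALM_stmt) :
    S_EXP_stmt := by
  intro n hn Λ _ hFG hRF hinf S
  rcases hDICH n hn Λ hRF hinf S with h | h
  · exact h
  · obtain ⟨K, hK, hK0, α, hα⟩ := hULT (n * n) Λ hFG (by
      intro B
      obtain ⟨p, hp, hBp, M, hM⟩ := h B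
      obtain ⟨α, hα⟩ := hADJ n hn Λ S M p hp hM
      exact ⟨p, α, hp, hBp, by omega⟩)
    obtain ⟨N₀, hN₀, h1⟩ := hALM n hn Λ hFG S (n * n) K α hα
    obtain ⟨ℓ, hℓ, hℓp⟩ := Nat.exists_infinite_primes (N₀ + 1)
    refine ⟨ℓ, hℓp, h1 ℓ hℓp ?_⟩
    intro hd
    have := Nat.le_of_dvd (Nat.pos_of_ne_zero hN₀) hd
    omega

end Pool.Agent.PR
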