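import Pool.Agent.helper5.PR.SpecS

/-!
Project pr, module S-IDX: if the level divides `D` then the index is bounded.
-/

set_option autoImplicit false

namespace Pool.Agent.PR

open Matrix

theorem S_IDX (hSAND : S_SAND_stmt) : S_IDX_stmt := by
  intro n hn Λ _ S D hD
  have : NeZero D := ⟨by omega⟩
  refine ⟨Nat.card (Matrix.SpecialLinearGroup (Fin n) (ZMod D)), ?_⟩
  intro M hM
  have h1 := (hSAND n hn (Λ ⧸ M.toSubgroup) (S.g M)).1
  have hlev : lev hn S M = orderOf (S.g M (e01 n hn)) := rfl
  rw [← hlev] at h1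
  have hsurj := S.surj M
  choose c hc using hsurj
  let red : SLZ n →* Matrix.SpecialLinearGroup (Fin n) (ZMod D) :=
    Matrix.SpecialLinearGroup.map (Int.castRingHom (ZMod D))
  have hinj : Function.Injective (fun y : Λ ⧸ M.toSubgroup => red (c y)) := by
    intro y y' hyy
    have h2 : red (c y * (c y')⁻¹) = 1 := by
      have h3 : red (c y) = red (c y') := hyy
      rw [map_mul, map_inv, h3, mul_inv_cancel]
    have h4 : S.g M (c y * (c y')⁻¹) = 1 := by
      apply h1
      intro i j
      have h5 := congrArg (fun x : Matrix.SpecialLinearGroup (Fin n) (ZMod D) =>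
        (x : Matrix (Fin n) (Fin n) (ZMod D)) i j) h2
      have h6 : ((((c y * (c y')⁻¹ : SLZ n) : Matrix (Fin n) (Fin n) ℤ) i j : ℤ) : ZMod D) =
          (1 : Matrix (Fin n) (Fin n) (ZMod D)) i j := h5
      have h7 : (D : ℤ) ∣ ((c y * (c y')⁻¹ : SLZ n) : Matrix (Fin n) (Fin n) ℤ) i j -
          (1 : Matrix (Fin n) (Fin n) ℤ) i j := by
        rw [← ZMod.intCast_zmod_eq_zero_iff_dvd]
        push_cast
        rw [sub_eq_zero, h6, Matrix.one_apply, Matrix.one_apply]
        split_ifs <;> simp
      exact dvd_trans (Int.natCast_dvd_natCast.2 hM) h7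
    rw [map_mul, map_inv, hc, hc, mul_inv_eq_one] at h4
    exact h4
  have h8 := Nat.card_le_card_of_injective _ hinj
  exact h8

end Pool.Agent.PR
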