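import Pool.Agent.helper5.PR.SpecS
import Pool.Agent.helper18.PR.K_REAL

/-!
Project pr, module S-REW: transfer of one representation over an algebraic closure of `ℚ_ℓ`, with
conditions given by subspaces.
-/

set_option autoImplicit false

namespace Pool.Agent.PR

open Matrix

theorem S_REW (hTR : TR_stmt) (hTOP : K_TOP_stmt) (hCLO : K_CLO_stmt) (hBLK : K_BLK_stmt) :
    S_REW_stmt := by
  intro ℓ _ n Γ Λ _ _ hΓ hΛ hQ r hi
  obtain ⟨m, R, R', f, hR, hf⟩ := hBLK ℓ n Λ hΛ r hi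
  obtain ⟨g₁, g₂, hcl, -⟩ := K_REAL_pair hTR hTOP ℓ Γ Λ hΓ hQ (Fin n × Fin m) (Fin n × Fin m) f f
  have hcl₁ : ∀ p : Matrix (Fin n × Fin m) (Fin n × Fin m) ℤ_[ℓ] → Prop, IsClosed {X | p X} →
      ((∀ γ, p (g₁ γ : Matrix (Fin n × Fin m) (Fin n × Fin m) ℤ_[ℓ])) ↔
        (∀ l, p (f l : Matrix (Fin n × Fin m) (Fin n × Fin m) ℤ_[ℓ]))) :=
    fun p hp => hcl (fun q => p q.1) (hp.preimage continuous_fst)
  obtain ⟨s, hs⟩ := K_REAL_hom hCLO ℓ n Γ Λ r R R' f hR hf g₁ hcl₁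
  have hT : ∀ l, K_REAL_T ℓ R R' (f l : Matrix (Fin n × Fin m) (Fin n × Fin m) ℤ_[ℓ]) =
      (r l : Matrix (Fin n) (Fin n) (Om ℓ)) := by
    intro l
    rw [K_REAL_T_apply, hf, Matrix.mul_assoc, hR, Matrix.mul_one]
  refine ⟨s, ?_, ?_⟩
  · intro hinf hfin
    apply hinf
    apply K_REAL_range n Λ (Om ℓ) r (Set.range s) hfin
    have h1 := (hcl₁ _ (K_REAL_clfin hCLO ℓ (K_REAL_T ℓ R R') (K_REAL_T_smul ℓ R R')
      (Set.range s) hfin)).1 (by
      intro γ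
      rw [← hs]
      exact ⟨γ, rfl⟩)
    intro l
    rw [← hT]
    exact h1 l
  · intro W hW
    have h2 := (hcl₁ _ (K_REAL_clW hCLO ℓ (K_REAL_T ℓ R R') (K_REAL_T_smul ℓ R R')
      (W.restrictScalars ℚ_[ℓ]))).2 (by
      intro l
      rw [hT, Submodule.restrictScalars_mem]
      exact hW l)
    intro γ
    have h3 := h2 γ
    rw [← hs, Submodule.restrictScalars_mem] at h3
    exact h3

end Pool.Agent.PR
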