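import Pool.Agent.helper5.PR.SpecS

/-!
Project pr, module S-SYS: a compatible system of surjections together with a transfer of a homomorphism to
a profinite group.
-/

set_option autoImplicit false

namespace Pool.Agent.PR

open Matrix

theorem S_SYS (hTR : TR_stmt) : S_SYS_stmt := by
  intro Γ Λ _ _ hΓ hQ P _ _ _ _ _ _ f
  let _ : ∀ M : FiniteIndexNormalSubgroup Λ, TopologicalSpace (Λ ⧸ M.toSubgroup) := fun _ => ⊥
  have hdis : ∀ M : FiniteIndexNormalSubgroup Λ, DiscreteTopology (Λ ⧸ M.toSubgroup) :=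
    fun _ => ⟨rfl⟩
  have hfin : ∀ M : FiniteIndexNormalSubgroup Λ, Finite (Λ ⧸ M.toSubgroup) := fun M => inferInstance
  have htg : ∀ M : FiniteIndexNormalSubgroup Λ, IsTopologicalGroup (Λ ⧸ M.toSubgroup) := fun M =>
    inferInstance
  have hcomp : ∀ M : FiniteIndexNormalSubgroup Λ, CompactSpace (Λ ⧸ M.toSubgroup) := fun M =>
    inferInstance
  have ht2 : ∀ M : FiniteIndexNormalSubgroup Λ, T2Space (Λ ⧸ M.toSubgroup) := fun M =>
    inferInstance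
  have htd : ∀ M : FiniteIndexNormalSubgroup Λ, TotallyDisconnectedSpace (Λ ⧸ M.toSubgroup) :=
    fun M => inferInstance
  let q : (M : FiniteIndexNormalSubgroup Λ) → Λ →* Λ ⧸ M.toSubgroup :=
    fun M => QuotientGroup.mk' M.toSubgroup
  let F : Λ →* P × ((M : FiniteIndexNormalSubgroup Λ) → Λ ⧸ M.toSubgroup) :=
    f.prod (MonoidHom.pi q)
  obtain ⟨g, hg⟩ := hTR Γ Λ hΓ hQ (P × ((M : FiniteIndexNormalSubgroup Λ) → Λ ⧸ M.toSubgroup)) F
  have hop : ∀ (M : FiniteIndexNormalSubgroup Λ) (A : Set (Λ ⧸ M.toSubgroup)),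
      IsOpen {x : P × ((M : FiniteIndexNormalSubgroup Λ) → Λ ⧸ M.toSubgroup) | x.2 M ∈ A} := by
    intro M A
    exact (isOpen_discrete A).preimage ((continuous_apply M).comp continuous_snd)
  have hop1 : ∀ (M : FiniteIndexNormalSubgroup Λ) (l : Λ) (U : Set P), IsOpen U →
      IsOpen {x : P × ((M : FiniteIndexNormalSubgroup Λ) → Λ ⧸ M.toSubgroup) |
        x.2 M = (l : Λ ⧸ M.toSubgroup) ∧ x.1 ∈ U} := by
    intro M l U hU
    exact (hop M {(l : Λ ⧸ M.toSubgroup)}).inter (hU.preimage continuous_fst)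
  have hfw : ∀ (l : Λ) (V : Set (P × ((M : FiniteIndexNormalSubgroup Λ) → Λ ⧸ M.toSubgroup))),
      IsOpen V → F l ∈ V → ∃ γ, g γ ∈ V := by
    intro l V hV hl
    have h1 : F l ∈ closure (Set.range g) := by
      rw [hg]
      exact subset_closure ⟨l, rfl⟩
    obtain ⟨_, h2, γ, rfl⟩ := mem_closure_iff.1 h1 V hV hl
    exact ⟨γ, h2⟩
  have hbw : ∀ (γ : Γ) (V : Set (P × ((M : FiniteIndexNormalSubgroup Λ) → Λ ⧸ M.toSubgroup))),
      IsOpen V → g γ ∈ V → ∃ l, F l ∈ V := by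
    intro γ V hV hl
    have h1 : g γ ∈ closure (Set.range F) := by
      rw [← hg]
      exact subset_closure ⟨γ, rfl⟩
    obtain ⟨_, h2, l, rfl⟩ := mem_closure_iff.1 h1 V hV hl
    exact ⟨l, h2⟩
  let gM : (M : FiniteIndexNormalSubgroup Λ) → Γ →* Λ ⧸ M.toSubgroup := fun M =>
    (Pi.evalMonoidHom (fun M : FiniteIndexNormalSubgroup Λ => Λ ⧸ M.toSubgroup) M).comp
      ((MonoidHom.snd P _).comp g)
  have hsurj : ∀ M, Function.Surjective (gM M) := by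
    intro M y
    obtain ⟨l, rfl⟩ := QuotientGroup.mk_surjective y
    obtain ⟨γ, hγ⟩ := hfw l _ (hop M {(l : Λ ⧸ M.toSubgroup)}) rfl
    exact ⟨γ, hγ⟩
  have hcompat : ∀ M M' : FiniteIndexNormalSubgroup Λ, M ≤ M' → ∀ (γ : Γ) (l : Λ),
      gM M γ = (l : Λ ⧸ M.toSubgroup) → gM M' γ = (l : Λ ⧸ M'.toSubgroup) := by
    intro M M' hMM γ l hl
    have hV : IsOpen {x : P × ((M : FiniteIndexNormalSubgroup Λ) → Λ ⧸ M.toSubgroup) |
        x.2 M = (l : Λ ⧸ M.toSubgroup) ∧ x.2 M' = gM M' γ} :=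
      (hop M {(l : Λ ⧸ M.toSubgroup)}).inter (hop M' {gM M' γ})
    obtain ⟨l', h1, h2⟩ := hbw γ _ hV ⟨hl, rfl⟩
    have h1' : (l' : Λ ⧸ M.toSubgroup) = (l : Λ ⧸ M.toSubgroup) := h1
    have h2' : (l' : Λ ⧸ M'.toSubgroup) = gM M' γ := h2
    rw [← h2']
    rw [QuotientGroup.eq] at h1' ⊢
    exact hMM h1'
  refine ⟨⟨gM, hsurj, hcompat⟩, (MonoidHom.fst P _).comp g, ?_, ?_⟩
  · intro l M U hU hl
    obtain ⟨γ, hγ⟩ := hfw l _ (hop1 M l U hU) ⟨rfl, hl⟩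
    exact ⟨γ, hγ.1, hγ.2⟩
  · intro γ M U hU hγ
    obtain ⟨l, hl⟩ := QuotientGroup.mk_surjective (gM M γ)
    obtain ⟨l', h1, h2⟩ := hbw γ _ (hop1 M l U hU) ⟨hl.symm, hγ⟩
    refine ⟨l', ?_, h2⟩
    have h1' : (l' : Λ ⧸ M.toSubgroup) = (l : Λ ⧸ M.toSubgroup) := h1
    rw [h1']
    exact hl.symm

end Pool.Agent.PR
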